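import Mathlib

/-!
Three-qubit strong nonlocality paradoxes (MP_3e1590_mp): definitions.
-/

namespace Q198.TQ

open Matrix

/-- The observable `n·σ` on one qubit. -/
noncomputable def obs (n : Fin 3 → ℝ) : Matrix (Fin 2) (Fin 2) ℂ :=
  !![(n 2 : ℂ), (n 0 : ℂ) - (n 1 : ℂ) * Complex.I;
     (n 0 : ℂ) + (n 1 : ℂ) * Complex.I, -(n 2 : ℂ)]

/-- A projective measurement of one qubit: an observable `n·σ` with `n` on the unit sphere. -/
def IsMeas (A : Matrix (Fin 2) (Fin 2) ℂ) : Prop :=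
  ∃ n : Fin 3 → ℝ, n 0 ^ 2 + n 1 ^ 2 + n 2 ^ 2 = 1 ∧ A = obs n

/-- The spectral projection `(1 + (-1)^a A)/2` of outcome `a`: outcome `0` is the eigenvalue `1`,
outcome `1` is the eigenvalue `-1`. -/
noncomputable def proj (A : Matrix (Fin 2) (Fin 2) ℂ) (a : ZMod 2) : Matrix (Fin 2) (Fin 2) ℂ :=
  (1 / 2 : ℂ) • (1 + (if a = 0 then (1 : ℂ) else -1) • A)

/-- The tensor product `P 0 ⊗ P 1 ⊗ P 2` acting on three qubits. -/
def tens (P : Fin 3 → Matrix (Fin 2) (Fin 2) ℂ) :
    Matrix (Fin 3 → Fin 2) (Fin 3 → Fin 2) ℂ :=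
  fun x y => ∏ i, P i (x i) (y i)

/-- The Born probability of the joint outcome `a` of the measurements `A` in the state `ψ`. -/
noncomputable def born (ψ : (Fin 3 → Fin 2) → ℂ) (A : Fin 3 → Matrix (Fin 2) (Fin 2) ℂ)
    (a : Fin 3 → ZMod 2) : ℂ :=
  star ψ ⬝ᵥ (tens (fun i => proj (A i) (a i)) *ᵥ ψ)

/-- A three-qubit quantum scenario. -/
structure Scenario where
  /-- the state -/
  ψ : (Fin 3 → Fin 2) → ℂ
  /-- the sets of measurements of the three qubits -/
  M : Fin 3 → Set (Matrix (Fin 2) (Fin 2) ℂ)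
  unit : star ψ ⬝ᵥ ψ = 1
  meas : ∀ i, ∀ A ∈ M i, IsMeas A
  finite : ∀ i, (M i).Finite
  nonempty : ∀ i, (M i).Nonempty

/-- The scenario is a paradox (is strongly nonlocal): there is no global assignment whose
restriction to every context is possible. -/
def Scenario.IsParadox (S : Scenario) : Prop :=
  ¬ ∃ g : (i : Fin 3) → {A // A ∈ S.M i} → ZMod 2,
    ∀ A : (i : Fin 3) → {A // A ∈ S.M i},
      born S.ψ (fun i => (A i).1) (fun i => g i (A i)) ≠ 0

/-- `S'` is obtained from `S` by a local unitary, applied to the state up to a global phase and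
by conjugation to the measurements. -/
def LocalUnitary (S S' : Scenario) : Prop :=
  ∃ (c : ℂ) (U : Fin 3 → Matrix (Fin 2) (Fin 2) ℂ), ‖c‖ = 1 ∧
    (∀ i, U i ∈ Matrix.unitaryGroup (Fin 2) ℂ) ∧
    S'.ψ = c • (tens U *ᵥ S.ψ) ∧
    ∀ i, S'.M i = (fun A => U i * A * star (U i)) '' S.M i

/-- `S'` is obtained from `S` by a permutation of the qubits: qubit `j` of `S` is
qubit `π j` of `S'`. -/
def QubitPerm (S S' : Scenario) : Prop :=
  ∃ π : Equiv.Perm (Fin 3), (S'.ψ = fun x => S.ψ (fun j => x (π j))) ∧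
    ∀ j, S'.M (π j) = S.M j

/-- Equivalence of scenarios: the equivalence relation generated by local unitaries and
permutations of the qubits. -/
def Equivalent : Scenario → Scenario → Prop :=
  Relation.EqvGen (fun S S' => LocalUnitary S S' ∨ QubitPerm S S')

/-- The state `φ` is obtained from `ψ` by a permutation of the qubits, followed by a local
unitary and a global phase. -/
def StateEquiv (ψ φ : (Fin 3 → Fin 2) → ℂ) : Prop :=
  ∃ (c : ℂ) (U : Fin 3 → Matrix (Fin 2) (Fin 2) ℂ) (π : Equiv.Perm (Fin 3)), ‖c‖ = 1 ∧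
    (∀ i, U i ∈ Matrix.unitaryGroup (Fin 2) ℂ) ∧
    φ = c • (tens U *ᵥ (fun x => ψ (fun j => x (π j))))

/-- The interpolant state
`B_l = (cos(l/2) (|000> + |111>) + sin(l/2) (|001> + |110>)) / √2`. -/
noncomputable def interp (l : ℝ) : (Fin 3 → Fin 2) → ℂ := fun x =>
  (1 / Real.sqrt 2 : ℝ) *
    ((Real.cos (l / 2) : ℝ) * ((if x = ![0, 0, 0] then 1 else 0) + (if x = ![1, 1, 1] then 1 else 0))
    + (Real.sin (l / 2) : ℝ) *
      ((if x = ![0, 0, 1] then 1 else 0) + (if x = ![1, 1, 0] then 1 else 0)))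

end Q198.TQ
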