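import Pool.Agent.Q198.TQ.Defs

namespace Q198.TQ

open Matrix

theorem tens_mul (P Q : Fin 3 → Matrix (Fin 2) (Fin 2) ℂ) :
    tens P * tens Q = tens (fun i => P i * Q i) := by
  ext x y
  simp only [Matrix.mul_apply, tens]
  rw [Finset.prod_univ_sum, Fintype.piFinset_univ]
  refine Finset.sum_congr rfl (fun z _ => ?_)
  rw [Finset.prod_mul_distrib]

theorem tens_conj (P : Fin 3 → Matrix (Fin 2) (Fin 2) ℂ) :
    (tens P)ᴴ = tens (fun i => (P i)ᴴ) := by
  ext x y
  simp only [Matrix.conjTranspose_apply, tens, star_prod]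

/-- expectation of the one-qubit operator `X` on qubit `i` -/
noncomputable def E (i : Fin 3) (ψ : (Fin 3 → Fin 2) → ℂ) (X : Matrix (Fin 2) (Fin 2) ℂ) : ℂ :=
  star ψ ⬝ᵥ (tens (Function.update (fun _ => 1) i X) *ᵥ ψ)

/-- some qubit is maximally mixed -/
def Mixed (ψ : (Fin 3 → Fin 2) → ℂ) : Prop :=
  ∃ i, ∀ X : Matrix (Fin 2) (Fin 2) ℂ, E i ψ X = X.trace / 2

theorem E_unitary (i : Fin 3) (ψ : (Fin 3 → Fin 2) → ℂ) (c : ℂ) (hc : ‖c‖ = 1)
    (U : Fin 3 → Matrix (Fin 2) (Fin 2) ℂ) (hU : ∀ i, U i ∈ Matrix.unitaryGroup (Fin 2) ℂ)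
    (X : Matrix (Fin 2) (Fin 2) ℂ) :
    E i (c • (tens U *ᵥ ψ)) X = E i ψ ((U i)ᴴ * X * U i) := by
  have hc' : star c * c = 1 := by
    have := Complex.conj_mul' c
    rw [hc] at this
    simpa using this
  have h1 : (fun j => (U j)ᴴ * (Function.update (fun _ => (1 : Matrix (Fin 2) (Fin 2) ℂ)) i X j)
      * U j) = Function.update (fun _ => 1) i ((U i)ᴴ * X * U i) := by
    funext j
    by_cases hj : j = i
    · subst hj
      simp
    · rw [Function.update_of_ne hj, Function.update_of_ne hj]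
      rw [mul_one]
      exact (Matrix.mem_unitaryGroup_iff'.1 (hU j))
  unfold E
  rw [← h1, ← tens_mul, ← tens_mul, ← tens_conj]
  rw [star_smul, Matrix.mulVec_smul, smul_dotProduct, dotProduct_smul, smul_smul, hc', one_smul]
  rw [Matrix.star_mulVec, ← Matrix.dotProduct_mulVec, Matrix.mulVec_mulVec, Matrix.mulVec_mulVec,
    Matrix.mul_assoc]

theorem E_perm (i : Fin 3) (ψ : (Fin 3 → Fin 2) → ℂ) (π : Equiv.Perm (Fin 3))
    (X : Matrix (Fin 2) (Fin 2) ℂ) :
    E (π i) (fun x => ψ (fun j => x (π j))) X = E i ψ X := by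
  unfold E
  simp only [dotProduct, Matrix.mulVec, Pi.star_apply, tens]
  let e : (Fin 3 → Fin 2) ≃ (Fin 3 → Fin 2) := Equiv.arrowCongr π.symm (Equiv.refl _)
  have he : ∀ x : Fin 3 → Fin 2, e x = fun j => x (π j) := by
    intro x
    funext j
    simp [e, Equiv.arrowCongr]
  symm
  rw [← Equiv.sum_comp e]
  refine Finset.sum_congr rfl (fun x _ => ?_)
  rw [he]
  congr 1
  rw [← Equiv.sum_comp e]
  refine Finset.sum_congr rfl (fun y _ => ?_)
  rw [he]
  congr 1
  symm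
  rw [← Equiv.prod_comp π]
  refine Finset.prod_congr rfl (fun j _ => ?_)
  by_cases hj : j = i
  · subst hj
    simp
  · rw [Function.update_of_ne hj, Function.update_of_ne (fun h => hj (π.injective h))]

theorem mixed_unitary (ψ : (Fin 3 → Fin 2) → ℂ) (c : ℂ) (hc : ‖c‖ = 1)
    (U : Fin 3 → Matrix (Fin 2) (Fin 2) ℂ) (hU : ∀ i, U i ∈ Matrix.unitaryGroup (Fin 2) ℂ) :
    Mixed (c • (tens U *ᵥ ψ)) ↔ Mixed ψ := by
  have hU1 : ∀ i, (U i)ᴴ * U i = 1 := fun i => Matrix.mem_unitaryGroup_iff'.1 (hU i)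
  have hU2 : ∀ i, U i * (U i)ᴴ = 1 := fun i => Matrix.mem_unitaryGroup_iff.1 (hU i)
  constructor
  · rintro ⟨i, h⟩
    refine ⟨i, fun X => ?_⟩
    have := h (U i * X * (U i)ᴴ)
    rw [E_unitary i ψ c hc U hU] at this
    have h2 : (U i)ᴴ * (U i * X * (U i)ᴴ) * U i = X := by
      calc (U i)ᴴ * (U i * X * (U i)ᴴ) * U i = ((U i)ᴴ * U i) * X * ((U i)ᴴ * U i) := by
            simp only [Matrix.mul_assoc]
        _ = X := by rw [hU1]; simp
    rw [h2] at this
    rw [this, Matrix.trace_mul_comm, ← Matrix.mul_assoc, hU1, one_mul]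
  · rintro ⟨i, h⟩
    refine ⟨i, fun X => ?_⟩
    rw [E_unitary i ψ c hc U hU, h, Matrix.trace_mul_comm, ← Matrix.mul_assoc, hU2, one_mul]

theorem mixed_perm (ψ : (Fin 3 → Fin 2) → ℂ) (π : Equiv.Perm (Fin 3)) :
    Mixed (fun x => ψ (fun j => x (π j))) ↔ Mixed ψ := by
  constructor
  · rintro ⟨i, h⟩
    refine ⟨π.symm i, fun X => ?_⟩
    rw [← E_perm (π.symm i) ψ π X, π.apply_symm_apply]
    exact h X
  · rintro ⟨i, h⟩
    refine ⟨π i, fun X => ?_⟩
    rw [E_perm]
    exact h X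

theorem mixed_equivalent {S S' : Scenario} (h : Equivalent S S') : Mixed S.ψ ↔ Mixed S'.ψ := by
  induction h with
  | rel S S' h =>
    rcases h with ⟨c, U, hc, hU, hψ, -⟩ | ⟨π, hψ, -⟩
    · rw [hψ, mixed_unitary _ _ hc _ hU]
    · rw [hψ, mixed_perm]
  | refl S => exact Iff.rfl
  | symm S S' _ ih => exact ih.symm
  | trans S S' S'' _ _ ih1 ih2 => exact ih1.trans ih2

theorem mixed_stateEquiv {ψ φ : (Fin 3 → Fin 2) → ℂ} (h : StateEquiv ψ φ) :
    Mixed ψ ↔ Mixed φ := by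
  obtain ⟨c, U, π, hc, hU, rfl⟩ := h
  rw [mixed_unitary _ _ hc _ hU, mixed_perm]

theorem sum_cube (f : (Fin 3 → Fin 2) → ℂ) :
    ∑ x, f x = f ![0,0,0] + f ![0,0,1] + f ![0,1,0] + f ![0,1,1] + f ![1,0,0] + f ![1,0,1]
      + f ![1,1,0] + f ![1,1,1] := by
  have h : (Finset.univ : Finset (Fin 3 → Fin 2)) = {![0,0,0], ![0,0,1], ![0,1,0], ![0,1,1],
      ![1,0,0], ![1,0,1], ![1,1,0], ![1,1,1]} := by decide
  rw [h]
  rw [Finset.sum_insert (by decide), Finset.sum_insert (by decide), Finset.sum_insert (by decide),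
    Finset.sum_insert (by decide), Finset.sum_insert (by decide), Finset.sum_insert (by decide),
    Finset.sum_insert (by decide), Finset.sum_singleton]
  ring

/-- The interpolant states have a maximally mixed qubit. -/
theorem mixed_interp (l : ℝ) : Mixed (interp l) := by
  refine ⟨0, fun X => ?_⟩
  unfold E
  have h2 : ((1 / Real.sqrt 2 : ℝ) : ℂ) * ((1 / Real.sqrt 2 : ℝ) : ℂ) = 1 / 2 := by
    rw [← Complex.ofReal_mul]
    have : (1 / Real.sqrt 2) * (1 / Real.sqrt 2) = 1 / 2 := by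
      rw [div_mul_div_comm, Real.mul_self_sqrt (by norm_num)]
      norm_num
    rw [this]
    push_cast
    ring
  have hcs : ((Real.cos (l / 2) : ℝ) : ℂ) * ((Real.cos (l / 2) : ℝ) : ℂ)
      + ((Real.sin (l / 2) : ℝ) : ℂ) * ((Real.sin (l / 2) : ℝ) : ℂ) = 1 := by
    rw [← Complex.ofReal_mul, ← Complex.ofReal_mul, ← Complex.ofReal_add]
    have : Real.cos (l / 2) * Real.cos (l / 2) + Real.sin (l / 2) * Real.sin (l / 2) = 1 := by
      have := Real.cos_sq_add_sin_sq (l / 2)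
      nlinarith
    rw [this]
    norm_num
  have v0 : interp l ![0,0,0] = (1 / Real.sqrt 2 : ℝ) * (Real.cos (l / 2) : ℝ) := by
    simp [interp]
  have v1 : interp l ![0,0,1] = (1 / Real.sqrt 2 : ℝ) * (Real.sin (l / 2) : ℝ) := by
    simp [interp]
  have v2 : interp l ![0,1,0] = 0 := by
    simp [interp]
  have v3 : interp l ![0,1,1] = 0 := by
    simp [interp]
  have v4 : interp l ![1,0,0] = 0 := by
    simp [interp]
  have v5 : interp l ![1,0,1] = 0 := by
    simp [interp]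
  have v6 : interp l ![1,1,0] = (1 / Real.sqrt 2 : ℝ) * (Real.sin (l / 2) : ℝ) := by
    simp [interp]
  have v7 : interp l ![1,1,1] = (1 / Real.sqrt 2 : ℝ) * (Real.cos (l / 2) : ℝ) := by
    simp [interp]
  simp only [dotProduct, Matrix.mulVec, Pi.star_apply, sum_cube, v0, v1, v2, v3, v4, v5, v6, v7,
    tens, Fin.prod_univ_three]
  simp only [star_mul', Complex.star_def, Complex.conj_ofReal, map_zero]
  simp only [Function.update_self, Matrix.cons_val_zero, Matrix.cons_val_one, Matrix.cons_val,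
    Matrix.trace_fin_two]
  simp [Function.update]
  have k2 : ((Real.sqrt 2 : ℝ) : ℂ)⁻¹ * ((Real.sqrt 2 : ℝ) : ℂ)⁻¹ = 1 / 2 := by
    have := h2
    push_cast at this
    rw [one_div] at this
    exact this
  have cs2 : Complex.cos (l / 2) * Complex.cos (l / 2) + Complex.sin (l / 2) * Complex.sin (l / 2)
      = 1 := by
    have := Complex.cos_sq_add_sin_sq ((l : ℂ) / 2)
    rw [← this]
    ring
  linear_combination (Complex.cos (l / 2) * Complex.cos (l / 2)
    + Complex.sin (l / 2) * Complex.sin (l / 2)) * (X 0 0 + X 1 1) * k2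
    + (1 / 2) * (X 0 0 + X 1 1) * cs2

end Q198.TQ
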