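import Pool.Agent.Q198.TQ.Par

namespace Q198.TQ

open Matrix

/-- all three-tuples of indices tested -/
def someBad (a0 a1 a2 b0 b1 b2 c0 c1 c2 c3 : ZMod 2) : Bool :=
  let a : Fin 4 → ZMod 2 := ![a0, a1, a2, a0]
  let b : Fin 4 → ZMod 2 := ![b0, b1, b2, b0]
  let c : Fin 4 → ZMod 2 := ![c0, c1, c2, c3]
  ([0, 1, 2] : List (Fin 4)).any fun k => ([0, 1, 2] : List (Fin 4)).any fun k' =>
    ([0, 1, 2, 3] : List (Fin 4)).any fun k'' => bad k k' k'' (a k) (b k') (c k'')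

set_option maxRecDepth 100000 in
theorem someBad_all : ∀ a0 a1 a2 b0 b1 b2 c0 c1 c2 c3 : ZMod 2,
    someBad a0 a1 a2 b0 b1 b2 c0 c1 c2 c3 = true := by
  decide

theorem exists_bad (g : Fin 3 → Fin 4 → ZMod 2) :
    ∃ k k' k'' : Fin 4, bad k k' k'' (g 0 k) (g 1 k') (g 2 k'') = true := by
  have h := someBad_all (g 0 0) (g 0 1) (g 0 2) (g 1 0) (g 1 1) (g 1 2) (g 2 0) (g 2 1) (g 2 2)
    (g 2 3)
  unfold someBad at h
  simp only [List.any_eq_true] at h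
  obtain ⟨k, hk, k', hk', k'', hk'', hb⟩ := h
  refine ⟨k, k', k'', ?_⟩
  have e1 : (![g 0 0, g 0 1, g 0 2, g 0 0] : Fin 4 → ZMod 2) k = g 0 k := by
    simp only [List.mem_cons, List.not_mem_nil, or_false] at hk
    rcases hk with rfl | rfl | rfl <;> rfl
  have e2 : (![g 1 0, g 1 1, g 1 2, g 1 0] : Fin 4 → ZMod 2) k' = g 1 k' := by
    simp only [List.mem_cons, List.not_mem_nil, or_false] at hk'
    rcases hk' with rfl | rfl | rfl <;> rfl
  have e3 : (![g 2 0, g 2 1, g 2 2, g 2 3] : Fin 4 → ZMod 2) k'' = g 2 k'' := by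
    simp only [List.mem_cons, List.not_mem_nil, or_false] at hk''
    rcases hk'' with rfl | rfl | rfl | rfl <;> rfl
  rw [e1, e2, e3] at hb
  exact hb

/-- the measurements -/
noncomputable def mm (i : Fin 3) (k : Fin 4) : Matrix (Fin 2) (Fin 2) ℂ :=
  obs (nv (wp i k) (wq i k))

theorem psi_vals : psi ![0,0,0] = ((1 / Real.sqrt 2 : ℝ) : ℂ) ∧ psi ![0,0,1] = 0 ∧
    psi ![0,1,0] = 0 ∧ psi ![0,1,1] = ((1 / Real.sqrt 2 * (-al) : ℝ) : ℂ) ∧ psi ![1,0,0] = 0 ∧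
    psi ![1,0,1] = ((1 / Real.sqrt 2 * (-al) : ℝ) : ℂ) ∧
    psi ![1,1,0] = ((1 / Real.sqrt 2 * (-tau) : ℝ) : ℂ) ∧ psi ![1,1,1] = 0 := by
  refine ⟨?_, ?_, ?_, ?_, ?_, ?_, ?_, ?_⟩ <;> simp [psi, st]

theorem inv_sq : (1 / Real.sqrt 2) * (1 / Real.sqrt 2) = (1 / 2 : ℝ) := by
  rw [div_mul_div_comm, Real.mul_self_sqrt (by norm_num)]
  norm_num

theorem psi_unit : star psi ⬝ᵥ psi = 1 := by
  obtain ⟨v0, v1, v2, v3, v4, v5, v6, v7⟩ := psi_vals
  simp only [dotProduct, Pi.star_apply, sum_cube, v0, v1, v2, v3, v4, v5, v6, v7]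
  simp only [Complex.star_def, Complex.conj_ofReal, map_zero, mul_zero, add_zero]
  norm_cast
  have h1 := inv_sq
  have h2 := al_sq
  have h3 := tau_sq
  have : (1 / Real.sqrt 2) * (1 / Real.sqrt 2) * (1 + al ^ 2 + al ^ 2 + tau ^ 2) = 1 := by
    rw [h1, h2, h3]
    ring
  linarith [this]

/-- The paradox. -/
noncomputable def S0 : Scenario where
  ψ := psi
  M := fun i => Set.range (mm i)
  unit := psi_unit
  meas := by
    rintro i _ ⟨k, rfl⟩
    exact ⟨nv (wp i k) (wq i k), nv_unit (w_pos i k), rfl⟩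
  finite := fun i => Set.finite_range _
  nonempty := fun i => Set.range_nonempty _

theorem S0_paradox : S0.IsParadox := by
  rintro ⟨g, hg⟩
  obtain ⟨k, k', k'', hb⟩ := exists_bad (fun i k => g i ⟨mm i k, ⟨k, rfl⟩⟩)
  let kk : Fin 3 → Fin 4 := ![k, k', k'']
  refine hg (fun i => ⟨mm i (kk i), ⟨kk i, rfl⟩⟩) ?_
  refine born_zero _ _ (fun i => wp i (kk i)) (fun i => wq i (kk i)) (fun i => w_pos i (kk i))
    (fun i => rfl) ?_
  exact amp_bad _ _ _ _ _ _ hb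

theorem psi_not_mixed : ¬ Mixed psi := by
  rintro ⟨i, h⟩
  have hZ := h !![1, 0; 0, -1]
  obtain ⟨v0, v1, v2, v3, v4, v5, v6, v7⟩ := psi_vals
  unfold E at hZ
  simp only [dotProduct, Matrix.mulVec, Pi.star_apply, sum_cube, v0, v1, v2, v3, v4, v5, v6, v7,
    tens, Fin.prod_univ_three] at hZ
  have h1 := inv_sq
  have h2 := al_sq
  have h3 := tau_sq
  have h4 := tau_pos
  rw [one_div] at h1
  fin_cases i
  · simp [Function.update, Matrix.trace_fin_two] at hZ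
    norm_cast at hZ
    have : (Real.sqrt 2)⁻¹ * (Real.sqrt 2)⁻¹ * (1 - tau ^ 2) = 0 := by linarith [hZ]
    rw [h1, h3] at this
    linarith
  · simp [Function.update, Matrix.trace_fin_two] at hZ
    norm_cast at hZ
    have : (Real.sqrt 2)⁻¹ * (Real.sqrt 2)⁻¹ * (1 - tau ^ 2) = 0 := by linarith [hZ]
    rw [h1, h3] at this
    linarith
  · simp [Function.update, Matrix.trace_fin_two] at hZ
    norm_cast at hZ
    have : (Real.sqrt 2)⁻¹ * (Real.sqrt 2)⁻¹ * (1 - 2 * al ^ 2 + tau ^ 2) = 0 := by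
      linarith [hZ]
    rw [h1, h2, h3] at this
    have h5 : tau = 1 / 2 := by linarith
    rw [h5] at h3
    norm_num at h3

/-- Q1 of the problem, as stated. -/
def Q1 : Prop :=
  ∀ S : Scenario, S.IsParadox →
    ∃ l : ℝ, 0 ≤ l ∧ l < Real.pi / 2 ∧
      ∃ S' : Scenario, S'.ψ = interp l ∧ S'.IsParadox ∧ Equivalent S S'

theorem main : (∃ S : Scenario, S.IsParadox ∧
    ∀ l : ℝ, ¬ StateEquiv S.ψ (interp l) ∧
      ∀ S' : Scenario, S'.ψ = interp l → ¬ Equivalent S S') ∧ ¬ Q1 := by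
  have key : ∀ l : ℝ, ¬ StateEquiv S0.ψ (interp l) ∧
      ∀ S' : Scenario, S'.ψ = interp l → ¬ Equivalent S0 S' := by
    intro l
    refine ⟨fun h => ?_, fun S' hS' h => ?_⟩
    · exact psi_not_mixed ((mixed_stateEquiv h).2 (mixed_interp l))
    · have h1 := (mixed_equivalent h).2
      rw [hS'] at h1
      exact psi_not_mixed (h1 (mixed_interp l))
  refine ⟨⟨S0, S0_paradox, key⟩, fun h => ?_⟩
  obtain ⟨l, -, -, S', hS', -, hE⟩ := h S0 S0_paradox
  exact (key l).2 S' hS' hE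

end Q198.TQ
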