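import Pool.Agent.Q198.TQ.Inv

namespace Q198.TQ

open Matrix

/-- τ = √2 - 1 -/
noncomputable def tau : ℝ := Real.sqrt 2 - 1

/-- α = √τ -/
noncomputable def al : ℝ := Real.sqrt tau

theorem tau_pos : 0 < tau := by
  unfold tau
  have : (1 : ℝ) < Real.sqrt 2 := by
    rw [Real.lt_sqrt (by norm_num)]
    norm_num
  linarith

theorem tau_sq : tau ^ 2 = 1 - 2 * tau := by
  unfold tau
  have := Real.sq_sqrt (show (0 : ℝ) ≤ 2 by norm_num)
  nlinarith

theorem al_pos : 0 < al := Real.sqrt_pos.2 tau_pos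

theorem al_sq : al ^ 2 = tau := Real.sq_sqrt tau_pos.le

theorem al_four : al ^ 4 = 1 - 2 * al ^ 2 := by
  have : al ^ 4 = (al ^ 2) ^ 2 := by ring
  rw [this, al_sq, tau_sq]

/-- the (unnormalised) real vector of outcome `0` of the measurement number `k` of qubit `i` -/
noncomputable def wp (i : Fin 3) (k : Fin 4) : ℝ :=
  (![![1, 1, al, 1], ![1, 1, al, 1], ![1, 1, 1, tau]] : Fin 3 → Fin 4 → ℝ) i k

/-- second component -/
noncomputable def wq (i : Fin 3) (k : Fin 4) : ℝ :=
  (![![0, al, 1, 0], ![0, al, 1, 0], ![0, tau, 1, 1]] : Fin 3 → Fin 4 → ℝ) i k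

theorem w_pos (i : Fin 3) (k : Fin 4) : 0 < wp i k ^ 2 + wq i k ^ 2 := by
  have h1 := tau_pos
  have h2 := al_pos
  fin_cases i <;> fin_cases k <;> simp [wp, wq] <;> positivity

/-- the unit vector of the observable with eigenvector `(p, q)` -/
noncomputable def nv (p q : ℝ) : Fin 3 → ℝ :=
  ![2 * p * q / (p ^ 2 + q ^ 2), 0, (p ^ 2 - q ^ 2) / (p ^ 2 + q ^ 2)]

theorem nv_unit {p q : ℝ} (h : 0 < p ^ 2 + q ^ 2) :
    (nv p q) 0 ^ 2 + (nv p q) 1 ^ 2 + (nv p q) 2 ^ 2 = 1 := by
  simp only [nv, Matrix.cons_val_zero, Matrix.cons_val_one, Matrix.cons_val]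
  field_simp
  ring

/-- the vector of outcome `a` -/
noncomputable def ov (p q : ℝ) (a : ZMod 2) : Fin 2 → ℝ := if a = 0 then ![p, q] else ![-q, p]

theorem proj_nv {p q : ℝ} (h : 0 < p ^ 2 + q ^ 2) (a : ZMod 2) (x y : Fin 2) :
    proj (obs (nv p q)) a x y = ((ov p q a x * (ov p q a y / (p ^ 2 + q ^ 2)) : ℝ) : ℂ) := by
  have hne : p ^ 2 + q ^ 2 ≠ 0 := h.ne'
  have hneC : ((p : ℂ) ^ 2 + (q : ℂ) ^ 2) ≠ 0 := by
    exact_mod_cast hne
  unfold proj obs ov nv
  by_cases ha : a = 0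
  · fin_cases x <;> fin_cases y <;> simp [ha] <;> field_simp <;> ring
  · fin_cases x <;> fin_cases y <;> simp [ha] <;> field_simp <;> ring

/-- the state (up to normalisation) -/
noncomputable def st : (Fin 3 → Fin 2) → ℝ := fun x =>
  if x = ![0,0,0] then 1 else if x = ![1,1,0] then -tau else if x = ![0,1,1] then -al
    else if x = ![1,0,1] then -al else 0

/-- the amplitude form -/
noncomputable def amp (p q p' q' p'' q'' : ℝ) : ℝ :=
  p * p' * p'' - tau * q * q' * p'' - al * p * q' * q'' - al * q * p' * q''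

noncomputable def psi : (Fin 3 → Fin 2) → ℂ := fun x => ((1 / Real.sqrt 2 * st x : ℝ) : ℂ)

theorem born_zero (A : Fin 3 → Matrix (Fin 2) (Fin 2) ℂ) (a : Fin 3 → ZMod 2)
    (p q : Fin 3 → ℝ) (h : ∀ i, 0 < p i ^ 2 + q i ^ 2) (hA : ∀ i, A i = obs (nv (p i) (q i)))
    (h0 : amp (ov (p 0) (q 0) (a 0) 0) (ov (p 0) (q 0) (a 0) 1)
      (ov (p 1) (q 1) (a 1) 0) (ov (p 1) (q 1) (a 1) 1)
      (ov (p 2) (q 2) (a 2) 0) (ov (p 2) (q 2) (a 2) 1) = 0) :
    born psi A a = 0 := by
  unfold born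
  have : tens (fun i => proj (A i) (a i)) *ᵥ psi = 0 := by
    funext x
    simp only [Matrix.mulVec, dotProduct, tens, Pi.zero_apply, hA]
    simp only [proj_nv (h _)]
    have hz : ∀ y, (∏ i, ((ov (p i) (q i) (a i) (x i) * (ov (p i) (q i) (a i) (y i)
        / (p i ^ 2 + q i ^ 2)) : ℝ) : ℂ)) * psi y
        = (((∏ i, (ov (p i) (q i) (a i) (x i) / (p i ^ 2 + q i ^ 2))) * (1 / Real.sqrt 2) *
          ((∏ i, ov (p i) (q i) (a i) (y i)) * st y) : ℝ) : ℂ) := by
      intro y
      unfold psi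
      rw [← Complex.ofReal_prod, ← Complex.ofReal_mul]
      congr 1
      have : ∀ i, ov (p i) (q i) (a i) (x i) * (ov (p i) (q i) (a i) (y i)
        / (p i ^ 2 + q i ^ 2)) = ov (p i) (q i) (a i) (x i) / (p i ^ 2 + q i ^ 2) *
          ov (p i) (q i) (a i) (y i) := fun i => by ring
      simp only [this, Finset.prod_mul_distrib]
      ring
    simp only [hz]
    rw [← Complex.ofReal_sum, ← Finset.mul_sum]
    have hs : ∑ y, (∏ i, ov (p i) (q i) (a i) (y i)) * st y = 0 := by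
      have hsum : ∀ f : (Fin 3 → Fin 2) → ℝ, ∑ x, f x = f ![0,0,0] + f ![0,0,1] + f ![0,1,0]
          + f ![0,1,1] + f ![1,0,0] + f ![1,0,1] + f ![1,1,0] + f ![1,1,1] := by
        intro f
        have h : (Finset.univ : Finset (Fin 3 → Fin 2)) = {![0,0,0], ![0,0,1], ![0,1,0],
          ![0,1,1], ![1,0,0], ![1,0,1], ![1,1,0], ![1,1,1]} := by decide
        rw [h]
        rw [Finset.sum_insert (by decide), Finset.sum_insert (by decide),
          Finset.sum_insert (by decide), Finset.sum_insert (by decide),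
          Finset.sum_insert (by decide), Finset.sum_insert (by decide),
          Finset.sum_insert (by decide), Finset.sum_singleton]
        ring
      rw [hsum]
      have s0 : st ![0,0,0] = 1 := by simp [st]
      have s1 : st ![0,0,1] = 0 := by simp [st]
      have s2 : st ![0,1,0] = 0 := by simp [st]
      have s3 : st ![0,1,1] = -al := by simp [st]
      have s4 : st ![1,0,0] = 0 := by simp [st]
      have s5 : st ![1,0,1] = -al := by simp [st]
      have s6 : st ![1,1,0] = -tau := by simp [st]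
      have s7 : st ![1,1,1] = 0 := by simp [st]
      rw [s0, s1, s2, s3, s4, s5, s6, s7]
      simp only [Fin.prod_univ_three, Matrix.cons_val_zero, Matrix.cons_val_one, Matrix.cons_val]
      unfold amp at h0
      linear_combination h0
    rw [hs]
    simp
  rw [this]
  simp

/-- angle labels, in units of a quarter of a right angle -/
def lab (i : Fin 3) (k : Fin 4) (a : ZMod 2) : ℕ :=
  if i = 2 then (if a = 0 then k.val else k.val + 4)
  else (if a = 0 then (![0, 1, 2, 0] : Fin 4 → ℕ) k else (![4, 6, 7, 4] : Fin 4 → ℕ) k)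

/-- Boolean test for an impossible event -/
def bad (k k' k'' : Fin 4) (a a' a'' : ZMod 2) : Bool :=
  (lab 0 k a + lab 1 k' a' + lab 2 k'' a'') % 8 = 4

set_option maxHeartbeats 4000000 in
theorem amp_bad : ∀ (k k' k'' : Fin 4) (a a' a'' : ZMod 2), bad k k' k'' a a' a'' = true →
    amp (ov (wp 0 k) (wq 0 k) a 0) (ov (wp 0 k) (wq 0 k) a 1)
      (ov (wp 1 k') (wq 1 k') a' 0) (ov (wp 1 k') (wq 1 k') a' 1)
      (ov (wp 2 k'') (wq 2 k'') a'' 0) (ov (wp 2 k'') (wq 2 k'') a'' 1) = 0 := by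
  have h4 := al_four
  have h2 : tau = al ^ 2 := al_sq.symm
  have z2 : ∀ a : ZMod 2, a = 0 ∨ a = 1 := by decide
  intro k k' k'' a a' a'' h
  rcases z2 a with rfl | rfl <;> rcases z2 a' with rfl | rfl <;> rcases z2 a'' with rfl | rfl <;>
  fin_cases k <;> fin_cases k' <;> fin_cases k'' <;>
  first
  | (exfalso; revert h; decide)
  | (simp [amp, ov, wp, wq, h2] ; done)
  | (simp [amp, ov, wp, wq, h2]; grind)

end Q198.TQ
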